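import Mathlib
import Pool.Agent.Results.MP_409260_co.NotTransitive

set_option autoImplicit false

/-!
# Rooted isomorphism of balls passes to smaller radii
-/

namespace Pool.Agent.Y404.UB

open Pool.Agent.Results.MP_409260_co.NotTransitive

variable {V : Type}

lemma walk_step (G : SimpleGraph V) {a b : V} (p : G.Walk a b) (k : ℕ) (hp : p.length = k + 1) :
    ∃ y, G.Adj a y ∧ G.edist y b ≤ k := by
  cases p with
  | nil => simp at hp
  | cons h p' =>
    rw [SimpleGraph.Walk.length_cons] at hp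
    refine ⟨_, h, p'.edist_le.trans ?_⟩
    exact_mod_cast (by omega : p'.length ≤ k)

lemma iso_dist_le (G : SimpleGraph V) {r : ℕ} {v v' : V}
    (φ : G.induce (ball G v r) ≃g G.induce (ball G v' r))
    (hφ : ∀ x : ball G v r, (x : V) = v → (φ x : V) = v') :
    ∀ k : ℕ, k ≤ r → ∀ x : ball G v r, G.edist (x : V) v ≤ k → G.edist (φ x : V) v' ≤ k := by
  intro k
  induction k with
  | zero =>
    intro _ x hx
    have h1 : G.edist (x : V) v = 0 := le_antisymm (by simpa using hx) bot_le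
    rw [SimpleGraph.edist_eq_zero_iff] at h1
    rw [hφ x h1, SimpleGraph.edist_self]
    exact bot_le
  | succ k ih =>
    intro hk x hx
    by_cases h1 : G.edist (x : V) v ≤ k
    · exact (ih (by omega) x h1).trans (by exact_mod_cast Nat.le_succ k)
    · have h2 : G.edist (x : V) v = ((k + 1 : ℕ) : ℕ∞) := by
        refine le_antisymm hx ?_
        push_cast
        exact Order.add_one_le_of_lt (not_le.mp h1)
      obtain ⟨p, hp⟩ := SimpleGraph.exists_walk_of_edist_eq_coe h2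
      obtain ⟨y, h, hy⟩ := walk_step G p k hp
      have hyb : y ∈ ball G v r := hy.trans (by exact_mod_cast (by omega : k ≤ r))
      have h3 := ih (by omega) ⟨y, hyb⟩ hy
      have h4 : (G.induce (ball G v' r)).Adj (φ x) (φ ⟨y, hyb⟩) := by
        rw [φ.map_adj_iff]
        exact h
      have h5 : G.edist (φ x : V) (φ ⟨y, hyb⟩ : V) ≤ 1 :=
        (SimpleGraph.edist_eq_one_iff_adj.mpr (show G.Adj (φ x : V) (φ ⟨y, hyb⟩ : V) from h4)).le
      refine (SimpleGraph.edist_triangle (v := (φ ⟨y, hyb⟩ : V))).trans ?_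
      push_cast
      rw [add_comm]
      exact add_le_add h3 h5

/-- Rooted isomorphism of the balls of radius `r` implies that of the balls of radius `t ≤ r`. -/
lemma rootedIso_mono (G : SimpleGraph V) {r t : ℕ} (htr : t ≤ r) {v v' : V}
    (h : RootedIso G r v v') : RootedIso G t v v' := by
  obtain ⟨φ, hφ⟩ := h
  have hv : v ∈ ball G v r := by
    show G.edist v v ≤ r
    rw [SimpleGraph.edist_self]; exact bot_le
  have hv' : v' ∈ ball G v' r := by
    show G.edist v' v' ≤ r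
    rw [SimpleGraph.edist_self]; exact bot_le
  have hroot : φ ⟨v, hv⟩ = ⟨v', hv'⟩ := Subtype.ext (hφ ⟨v, hv⟩ rfl)
  have hψ : ∀ x : ball G v' r, (x : V) = v' → (φ.symm x : V) = v := by
    intro x hx
    have h1 : x = ⟨v', hv'⟩ := Subtype.ext hx
    rw [h1, ← hroot, φ.symm_apply_apply]
  have hsub : ∀ {u : V}, ball G u t ⊆ ball G u r := by
    intro u x hx
    exact le_trans (show G.edist x u ≤ t from hx) (by exact_mod_cast htr)
  refine ⟨⟨⟨fun x => ⟨(φ ⟨x.1, hsub x.2⟩ : V), iso_dist_le G φ hφ t htr _ x.2⟩,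
    fun y => ⟨(φ.symm ⟨y.1, hsub y.2⟩ : V), iso_dist_le G φ.symm hψ t htr _ y.2⟩, ?_, ?_⟩, ?_⟩, ?_⟩
  · rintro ⟨x, hx⟩
    apply Subtype.ext
    simp
  · rintro ⟨x, hx⟩
    apply Subtype.ext
    simp
  · rintro ⟨x, hx⟩ ⟨y, hy⟩
    exact φ.map_adj_iff (v := ⟨x, hsub hx⟩) (w := ⟨y, hsub hy⟩)
  · rintro ⟨x, hx⟩ h
    exact hφ ⟨x, hsub hx⟩ h

lemma uniform_mono {G : SimpleGraph V} {r t k : ℕ} (htr : t ≤ r) [Nonempty V]
    (h : UniformBallsOfRadius G r k) : ∃ k', UniformBallsOfRadius G t k' := by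
  obtain ⟨a⟩ := ‹Nonempty V›
  refine ⟨(ball G a t).ncard, ?_, fun v v' => rootedIso_mono G htr (h.2 v v')⟩
  intro v
  obtain ⟨φ, -⟩ := rootedIso_mono G htr (h.2 v a)
  rw [← Nat.card_coe_set_eq, ← Nat.card_coe_set_eq]
  exact Nat.card_congr φ.toEquiv

end Pool.Agent.Y404.UB
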