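import Mathlib
import Pool.Agent.Results.MP_409260_co.NotTransitive

set_option autoImplicit false

/-!
# Twisted cyclic graphs: distances and balls

`V` is a finite set with a permutation `ρ` and a map `π : V → ZMod N` such that
`π (ρ v) = π v + 1`; two distinct vertices are adjacent when their positions differ by less than `w`
or when one is the image of the other under `ρ ^ w`.
-/

namespace Pool.Agent.Y404.UB

open Pool.Agent.Results.MP_409260_co.NotTransitive

variable {V : Type} (ρ : Equiv.Perm V) (w N : ℕ) (π : V → ZMod N)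

/-- The twisted cyclic graph. -/
def TG : SimpleGraph V where
  Adj a b := a ≠ b ∧ ((∃ δ : ℤ, -(w : ℤ) < δ ∧ δ < w ∧ π b = π a + (δ : ZMod N)) ∨
    b = (ρ ^ (w : ℤ)) a ∨ a = (ρ ^ (w : ℤ)) b)
  symm := by
    constructor
    rintro a b ⟨h1, h2⟩
    refine ⟨h1.symm, ?_⟩
    rcases h2 with ⟨δ, h3, h4, h5⟩ | h | h
    · refine Or.inl ⟨-δ, by omega, by omega, ?_⟩
      rw [h5]; push_cast; ring
    · exact Or.inr (Or.inr h)
    · exact Or.inr (Or.inl h)
  loopless := by
    constructor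
    rintro a ⟨h, -⟩
    exact h rfl

variable {ρ w N π}

lemma sh_add (δ δ' : ℤ) (v : V) : (ρ ^ (δ + δ')) v = (ρ ^ δ) ((ρ ^ δ') v) := by
  rw [zpow_add, Equiv.Perm.mul_apply]

lemma sh_eq_iff (δ δ' : ℤ) (u v : V) : (ρ ^ δ) u = (ρ ^ δ') v ↔ u = (ρ ^ (δ' - δ)) v := by
  have h1 : (ρ ^ δ') v = (ρ ^ δ) ((ρ ^ (δ' - δ)) v) := by rw [← sh_add]; congr 2; ring
  rw [h1]
  exact (ρ ^ δ).injective.eq_iff

lemma sh_pi (hπ : ∀ v, π (ρ v) = π v + 1) (δ : ℤ) (v : V) :
    π ((ρ ^ δ) v) = π v + (δ : ZMod N) := by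
  induction δ using Int.induction_on with
  | zero => simp
  | succ i ih =>
    rw [add_comm, sh_add, zpow_one, hπ, ih]
    push_cast; ring
  | pred i ih =>
    have h1 := hπ ((ρ ^ (-(i : ℤ) - 1)) v)
    have h2 : ρ ((ρ ^ (-(i : ℤ) - 1)) v) = (ρ ^ (-(i : ℤ))) v := by
      have : (-(i : ℤ)) = 1 + (-(i : ℤ) - 1) := by ring
      conv_rhs => rw [this, sh_add, zpow_one]
    rw [h2, ih] at h1
    have h3 : π ((ρ ^ (-(i : ℤ) - 1)) v) = π v + ((-(i : ℤ) : ℤ) : ZMod N) - 1 := by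
      rw [h1]; ring
    rw [h3]; push_cast; ring

/-- displacement along a walk -/
lemma walk_disp (hπ : ∀ v, π (ρ v) = π v + 1) {a b : V} (p : (TG ρ w N π).Walk a b) :
    ∃ δ : ℤ, -((p.length : ℤ) * w) ≤ δ ∧ δ ≤ (p.length : ℤ) * w ∧ π b = π a + (δ : ZMod N) ∧
      ((δ = (p.length : ℤ) * w ∨ δ = -((p.length : ℤ) * w)) → b = (ρ ^ δ) a) := by
  induction p with
  | nil => exact ⟨0, by simp, by simp, by simp, by simp⟩
  | @cons a c b h p ih =>
    obtain ⟨δ, h1, h2, h3, h4⟩ := ih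
    have hl : (((SimpleGraph.Walk.cons h p).length : ℕ) : ℤ) * w = (p.length : ℤ) * w + w := by
      rw [SimpleGraph.Walk.length_cons]; push_cast; ring
    rw [hl]
    generalize (p.length : ℤ) * w = L at h1 h2 h4
    have hw : (0 : ℤ) ≤ w := by positivity
    obtain ⟨-, ⟨δ', h5, h6, h7⟩ | h5 | h5⟩ := h
    · refine ⟨δ + δ', by omega, by omega, ?_, fun h => ?_⟩
      · rw [h3, h7]; push_cast; ring
      · omega
    · have h6 : π c = π a + (w : ZMod N) := by
        rw [h5, sh_pi hπ]; push_cast; rfl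
      refine ⟨δ + w, by omega, by omega, ?_, fun h => ?_⟩
      · rw [h3, h6]; push_cast; ring
      · rw [sh_add, ← h5]; exact h4 (by omega)
    · have h6 : π a = π c + (w : ZMod N) := by
        rw [h5, sh_pi hπ]; push_cast; rfl
      refine ⟨δ - w, by omega, by omega, ?_, fun h => ?_⟩
      · rw [h3, h6]; push_cast; ring
      · rw [h5, ← sh_add]
        have : δ - (w : ℤ) + w = δ := by ring
        rw [this]
        exact h4 (by omega)

/-- the set which turns out to be the ball of radius `r` around `a`. -/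
def B (ρ : Equiv.Perm V) (w r : ℕ) {N : ℕ} (π : V → ZMod N) (a u : V) : Prop :=
  π u ≠ π a + ((r * w : ℕ) : ZMod N) ∨ u = (ρ ^ ((r * w : ℕ) : ℤ)) a ∨
    u = (ρ ^ (-((r * w : ℕ) : ℤ))) a

lemma B_of_edist (hπ : ∀ v, π (ρ v) = π v + 1) {r : ℕ} (hN : N = 2 * (r * w)) (hrw : 0 < r * w)
    {a u : V} (h : (TG ρ w N π).edist u a ≤ r) : B ρ w r π a u := by
  rw [SimpleGraph.edist_comm] at h
  have htop : (TG ρ w N π).edist a u ≠ ⊤ := fun hh => by rw [hh] at h; exact absurd h (by simp)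
  obtain ⟨p, hp⟩ := SimpleGraph.exists_walk_of_edist_ne_top htop
  obtain ⟨δ, h1, h2, h3, h4⟩ := walk_disp hπ p
  have hlen : p.length ≤ r := by
    rw [← hp] at h; exact_mod_cast h
  have hL : (p.length : ℤ) * w ≤ ((r * w : ℕ) : ℤ) := by
    push_cast
    exact mul_le_mul_of_nonneg_right (by exact_mod_cast hlen) (by positivity)
  generalize hLL : (p.length : ℤ) * w = L at *
  unfold B
  by_cases hc : π u = π a + ((r * w : ℕ) : ZMod N)
  · right
    rw [h3] at hc
    have h5 : ((δ : ℤ) : ZMod N) = (((r * w : ℕ) : ℤ) : ZMod N) := by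
      have := add_left_cancel hc
      rw [this]; push_cast; ring
    rw [ZMod.intCast_eq_intCast_iff_dvd_sub] at h5
    obtain ⟨k, hk⟩ := h5
    rw [hN] at hk
    push_cast at hk hL ⊢
    have hrw' : (0 : ℤ) < (r : ℤ) * w := by exact_mod_cast hrw
    generalize (r : ℤ) * w = M at *
    have hk1 : k = 0 ∨ k = 1 := by
      have h6 : 0 ≤ 2 * M * k := by linarith
      have h7 : 2 * M * k ≤ 2 * M := by linarith
      have h8 : 0 ≤ k := by
        by_contra hneg
        push Not at hneg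
        nlinarith
      have h9 : k ≤ 1 := by
        by_contra hneg
        push Not at hneg
        nlinarith
      omega
    rcases hk1 with rfl | rfl
    · left
      have : δ = M := by linarith
      rw [← this]
      exact h4 (Or.inl (by linarith))
    · right
      have : δ = -M := by linarith
      rw [← this]
      exact h4 (Or.inr (by linarith))
  · exact Or.inl hc

lemma strand_le (a : V) : (TG ρ w N π).edist ((ρ ^ (w : ℤ)) a) a ≤ 1 := by
  by_cases h : (ρ ^ (w : ℤ)) a = a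
  · rw [h, SimpleGraph.edist_self]; exact bot_le
  · have hadj : (TG ρ w N π).Adj ((ρ ^ (w : ℤ)) a) a := ⟨h, Or.inr (Or.inr rfl)⟩
    exact (SimpleGraph.edist_eq_one_iff_adj.mpr hadj).le

lemma strand_pow (t : ℕ) (a : V) : (TG ρ w N π).edist ((ρ ^ ((t * w : ℕ) : ℤ)) a) a ≤ t := by
  induction t with
  | zero => simp
  | succ t ih =>
    have h1 : (((t + 1) * w : ℕ) : ℤ) = (w : ℤ) + ((t * w : ℕ) : ℤ) := by push_cast; ring
    rw [h1, sh_add]
    refine (SimpleGraph.edist_triangle (v := (ρ ^ ((t * w : ℕ) : ℤ)) a)).trans ?_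
    push_cast
    rw [add_comm]
    push_cast at ih
    exact add_le_add ih (strand_le _)

lemma near_le (hπ : ∀ v, π (ρ v) = π v + 1) (hw : 0 < w) (t : ℕ) :
    ∀ (a b : V) (δ : ℤ), -(((t + 1) * w : ℕ) : ℤ) < δ → δ < (((t + 1) * w : ℕ) : ℤ) →
      π b = π a + (δ : ZMod N) → (TG ρ w N π).edist b a ≤ ((t + 1 : ℕ) : ℕ∞) := by
  have base : ∀ (a b : V) (δ : ℤ), -(w : ℤ) < δ → δ < (w : ℤ) →
      π b = π a + (δ : ZMod N) → (TG ρ w N π).edist b a ≤ 1 := by
    intro a b δ h1 h2 h3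
    by_cases h : a = b
    · rw [h, SimpleGraph.edist_self]; exact bot_le
    · rw [SimpleGraph.edist_comm]
      have hadj : (TG ρ w N π).Adj a b := ⟨h, Or.inl ⟨δ, h1, h2, h3⟩⟩
      exact (SimpleGraph.edist_eq_one_iff_adj.mpr hadj).le
  induction t with
  | zero =>
    intro a b δ h1 h2 h3
    have := base a b δ (by simpa using h1) (by simpa using h2) h3
    simpa using this
  | succ t ih =>
    intro a b δ h1 h2 h3
    have hm : (((t + 1 + 1) * w : ℕ) : ℤ) = (((t + 1) * w : ℕ) : ℤ) + w := by push_cast; ring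
    have hm2 : (w : ℤ) ≤ (((t + 1) * w : ℕ) : ℤ) := by
      push_cast; nlinarith [Nat.zero_le t, Nat.zero_le w]
    rw [hm] at h1 h2
    generalize (((t + 1) * w : ℕ) : ℤ) = M at *
    have hw' : (0 : ℤ) < w := by exact_mod_cast hw
    have hone : (((t + 1 + 1 : ℕ)) : ℕ∞) = ((t + 1 : ℕ) : ℕ∞) + 1 := by push_cast; ring
    rw [hone]
    by_cases hs : -(w : ℤ) < δ ∧ δ < w
    · exact (base a b δ hs.1 hs.2 h3).trans (le_add_self)
    · by_cases hp : (w : ℤ) ≤ δ
      · have h4 := ih a ((ρ ^ (-(w : ℤ))) b) (δ - w) (by omega) (by omega) (by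
          rw [sh_pi hπ, h3]; push_cast; ring)
        have h5 : (TG ρ w N π).edist b ((ρ ^ (-(w : ℤ))) b) ≤ 1 := by
          have h6 := strand_le (ρ := ρ) (w := w) (N := N) (π := π) ((ρ ^ (-(w : ℤ))) b)
          rw [← sh_add] at h6
          simpa using h6
        refine (SimpleGraph.edist_triangle (v := (ρ ^ (-(w : ℤ))) b)).trans ?_
        rw [add_comm]
        exact add_le_add h4 h5
      · have h4 := ih a ((ρ ^ (w : ℤ)) b) (δ + w) (by omega) (by omega) (by
          rw [sh_pi hπ, h3]; push_cast; ring)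
        have h5 : (TG ρ w N π).edist b ((ρ ^ (w : ℤ)) b) ≤ 1 := by
          rw [SimpleGraph.edist_comm]; exact strand_le b
        refine (SimpleGraph.edist_triangle (v := (ρ ^ (w : ℤ)) b)).trans ?_
        rw [add_comm]
        exact add_le_add h4 h5

/-- the positions differ by an integer in `(-rw, rw]` -/
lemma exists_disp {r : ℕ} (hN : N = 2 * (r * w)) (hrw : 0 < r * w) (a b : V) :
    ∃ δ : ℤ, -((r * w : ℕ) : ℤ) < δ ∧ δ ≤ ((r * w : ℕ) : ℤ) ∧ π b = π a + (δ : ZMod N) := by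
  have : NeZero N := ⟨by omega⟩
  refine ⟨(π b - π a).valMinAbs, ?_, ?_, ?_⟩
  · have := (ZMod.valMinAbs_mem_Ioc (π b - π a)).1
    omega
  · have := (ZMod.valMinAbs_mem_Ioc (π b - π a)).2
    omega
  · rw [ZMod.coe_valMinAbs]; ring

lemma edist_of_B (hπ : ∀ v, π (ρ v) = π v + 1) {r : ℕ} (hN : N = 2 * (r * w)) (hrw : 0 < r * w)
    {a u : V} (h : B ρ w r π a u) : (TG ρ w N π).edist u a ≤ r := by
  have hw : 0 < w := Nat.pos_of_mul_pos_left hrw
  have hr : 0 < r := Nat.pos_of_mul_pos_right hrw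
  rcases h with h | h | h
  · obtain ⟨δ, h1, h2, h3⟩ := exists_disp (π := π) hN hrw a u
    obtain ⟨t, rfl⟩ : ∃ t, r = t + 1 := ⟨r - 1, by omega⟩
    have h4 : δ ≠ (((t + 1) * w : ℕ) : ℤ) := by
      rintro rfl
      exact h (by rw [h3]; push_cast; ring)
    exact near_le hπ hw t a u δ h1 (by omega) h3
  · rw [h]; exact strand_pow r a
  · rw [h, SimpleGraph.edist_comm]
    have := strand_pow (ρ := ρ) (w := w) (N := N) (π := π) r ((ρ ^ (-((r * w : ℕ) : ℤ))) a)
    rw [← sh_add] at this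
    simpa using this

lemma mem_ball_iff (hπ : ∀ v, π (ρ v) = π v + 1) {r : ℕ} (hN : N = 2 * (r * w))
    (hrw : 0 < r * w) (a u : V) : u ∈ ball (TG ρ w N π) a r ↔ B ρ w r π a u :=
  ⟨fun h => B_of_edist hπ hN hrw h, fun h => edist_of_B hπ hN hrw h⟩

lemma edist_le_succ (hπ : ∀ v, π (ρ v) = π v + 1) {r : ℕ} (hN : N = 2 * (r * w))
    (hrw : 0 < r * w) (a b : V) : (TG ρ w N π).edist a b ≤ ((r + 1 : ℕ) : ℕ∞) := by
  have hw : 0 < w := Nat.pos_of_mul_pos_left hrw
  obtain ⟨δ, h1, h2, h3⟩ := exists_disp (π := π) hN hrw b a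
  have hm : (((r + 1) * w : ℕ) : ℤ) = ((r * w : ℕ) : ℤ) + w := by push_cast; ring
  exact near_le hπ hw r b a δ (by omega) (by omega) h3

end Pool.Agent.Y404.UB
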