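import Pool.Agent.Y404.UB.Orbits

set_option autoImplicit false

/-!
# Twisted cyclic graphs: the model with `s` cycles of lengths `4N, 5N, ..., (s+3)N`
-/

namespace Pool.Agent.Y404.UB

open Pool.Agent.Results.MP_409260_co.NotTransitive

/-- The vertices: `s` cyclic groups. -/
abbrev VV (s N : ℕ) : Type := Σ i : Fin s, ZMod (((i : ℕ) + 4) * N)

instance instNZ (s N : ℕ) [NeZero N] (i : Fin s) : NeZero (((i : ℕ) + 4) * N) :=
  ⟨Nat.mul_ne_zero (by omega) (NeZero.ne N)⟩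

/-- rotation by one -/
def rho (s N : ℕ) : Equiv.Perm (VV s N) :=
  Equiv.sigmaCongrRight fun i => Equiv.addRight (1 : ZMod (((i : ℕ) + 4) * N))

/-- the position -/
def pos (s N : ℕ) (v : VV s N) : ZMod N :=
  ZMod.castHom (Dvd.intro_left ((v.1 : ℕ) + 4) rfl) (ZMod N) v.2

lemma rho_apply (s N : ℕ) (i : Fin s) (x : ZMod (((i : ℕ) + 4) * N)) :
    rho s N ⟨i, x⟩ = ⟨i, x + 1⟩ := rfl

lemma pos_rho (s N : ℕ) (v : VV s N) : pos s N (rho s N v) = pos s N v + 1 := by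
  obtain ⟨i, x⟩ := v
  rw [rho_apply]
  unfold pos
  rw [map_add, map_one]

lemma rho_zpow (s N : ℕ) (δ : ℤ) (i : Fin s) (x : ZMod (((i : ℕ) + 4) * N)) :
    (rho s N ^ δ) ⟨i, x⟩ = ⟨i, x + (δ : ZMod (((i : ℕ) + 4) * N))⟩ := by
  induction δ using Int.induction_on generalizing x with
  | zero => simp
  | succ k ih =>
    rw [sh_add, zpow_one, rho_apply, ih]
    congr 1
    push_cast; ring
  | pred k ih =>
    have h1 : (⟨i, x⟩ : VV s N) = (rho s N ^ (1 : ℤ)) ⟨i, x - 1⟩ := by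
      rw [zpow_one, rho_apply, sub_add_cancel]
    rw [h1, ← sh_add]
    have h2 : -(k : ℤ) - 1 + 1 = -(k : ℤ) := by ring
    rw [h2, ih]
    congr 1
    push_cast; ring

lemma rho_per (s N : ℕ) [NeZero N] (a : VV s N) (δ : ℤ) (h1 : -(4 * (N : ℤ)) < δ)
    (h2 : δ < 4 * N) (h : (rho s N ^ δ) a = a) : δ = 0 := by
  obtain ⟨i, x⟩ := a
  rw [rho_zpow] at h
  have h3 : x + (δ : ZMod (((i : ℕ) + 4) * N)) = x := by
    have := (Sigma.mk.inj_iff.mp h).2
    exact eq_of_heq this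
  have h4 : (δ : ZMod (((i : ℕ) + 4) * N)) = 0 := by
    rwa [add_eq_left] at h3
  rw [ZMod.intCast_zmod_eq_zero_iff_dvd] at h4
  refine Int.eq_zero_of_abs_lt_dvd h4 ?_
  have hN : (0 : ℤ) < N := by exact_mod_cast Nat.pos_of_ne_zero (NeZero.ne N)
  have h5 : 4 * (N : ℤ) ≤ (((i : ℕ) + 4) * N : ℕ) := by
    push_cast
    nlinarith [Int.natCast_nonneg (i : ℕ)]
  rw [abs_lt]
  constructor <;> linarith

lemma comp_card (s w r : ℕ) (hrw : 0 < r * w) (i : Fin s) :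
    (Comp (TG (rho s (2 * (r * w))) w (2 * (r * w)) (pos s (2 * (r * w)))) r
      ⟨i, 0⟩).ncard = 2 * ((i : ℕ) + 4) := by
  have : NeZero (2 * (r * w)) := ⟨by omega⟩
  rw [comp_eq (pos_rho s _) rfl hrw]
  · have h1 : {b : VV s (2 * (r * w)) | ∃ j : ℤ, b = (rho s (2 * (r * w)) ^
        (j * ((r : ℤ) * w))) ⟨i, 0⟩} = Sigma.mk i ''
          (AddSubgroup.zmultiples (((r * w : ℕ)) : ZMod (((i : ℕ) + 4) * (2 * (r * w)))) :
            Set (ZMod (((i : ℕ) + 4) * (2 * (r * w))))) := by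
      ext b
      rw [Set.mem_ofPred_eq, Set.mem_image]
      constructor
      · rintro ⟨j, rfl⟩
        refine ⟨j • (((r * w : ℕ)) : ZMod (((i : ℕ) + 4) * (2 * (r * w)))),
          ⟨j, rfl⟩, ?_⟩
        rw [rho_zpow]
        congr 1
        rw [zsmul_eq_mul]; push_cast; ring
      · rintro ⟨_, ⟨j, rfl⟩, rfl⟩
        refine ⟨j, ?_⟩
        rw [rho_zpow]
        congr 1
        simp only [zsmul_eq_mul]; push_cast; ring
    rw [h1, Set.ncard_image_of_injective _ sigma_mk_injective]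
    have h2 : (AddSubgroup.zmultiples (((r * w : ℕ)) : ZMod (((i : ℕ) + 4) * (2 * (r * w)))) :
            Set (ZMod (((i : ℕ) + 4) * (2 * (r * w))))).ncard = Nat.card
          (AddSubgroup.zmultiples (((r * w : ℕ)) : ZMod (((i : ℕ) + 4) * (2 * (r * w))))) := rfl
    rw [h2, Nat.card_zmultiples, ZMod.addOrderOf_coe _ (NeZero.ne _)]
    have h3 : Nat.gcd (((i : ℕ) + 4) * (2 * (r * w))) (r * w) = r * w :=
      Nat.gcd_eq_right (Dvd.intro_left (((i : ℕ) + 4) * 2) (by ring))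
    rw [h3]
    have h4 : ((i : ℕ) + 4) * (2 * (r * w)) = (2 * ((i : ℕ) + 4)) * (r * w) := by ring
    rw [h4]
    exact Nat.mul_div_cancel _ hrw
  · intro a δ h1 h2 h3
    refine rho_per s (2 * (r * w)) a δ ?_ ?_ h3
    · push_cast; linarith
    · push_cast; linarith

lemma far_count {V : Type} [Finite V] {ρ : Equiv.Perm V} {w N : ℕ} {π : V → ZMod N}
    (hπ : ∀ v, π (ρ v) = π v + 1) {r : ℕ} (hN : N = 2 * (r * w)) (hrw : 0 < r * w) (a : V) :
    N * ((ball (TG ρ w N π) a r)ᶜ).ncard ≤ Nat.card V := by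
  have : NeZero N := ⟨by omega⟩
  set S : Set V := (ball (TG ρ w N π) a r)ᶜ with hS
  have hpi : ∀ b ∈ S, π b = π a + ((r * w : ℕ) : ZMod N) := by
    intro b hb
    by_contra hne
    exact hb ((mem_ball_iff hπ hN hrw a b).mpr (Or.inl hne))
  have h1 : Function.Injective (fun p : Fin N × S => (ρ ^ ((p.1 : ℕ) : ℤ)) (p.2 : V)) := by
    rintro ⟨j, b, hb⟩ ⟨j', b', hb'⟩ h
    simp only at h
    have h2 := congrArg π h
    rw [sh_pi hπ, sh_pi hπ, hpi b hb, hpi b' hb'] at h2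
    have h3 : (((j : ℕ) : ℤ) : ZMod N) = (((j' : ℕ) : ℤ) : ZMod N) := add_left_cancel h2
    have h4 : (((j : ℕ)) : ZMod N) = (((j' : ℕ)) : ZMod N) := by
      push_cast at h3; exact h3
    rw [ZMod.natCast_eq_natCast_iff'] at h4
    rw [Nat.mod_eq_of_lt j.isLt, Nat.mod_eq_of_lt j'.isLt] at h4
    have h5 : j = j' := Fin.ext h4
    subst h5
    have h6 : b = b' := (ρ ^ ((j : ℕ) : ℤ)).injective h
    subst h6
    rfl
  have h2 := Nat.card_le_card_of_injective _ h1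
  rw [Nat.card_prod, Nat.card_fin, Nat.card_coe_set_eq] at h2
  exact h2

theorem main (r s : ℕ) (hr : 1 ≤ r) (hs : 1 ≤ s) (ε : ℝ) (hε : 0 < ε) :
    ∃ (n k : ℕ) (V : Type) (_ : Fintype V) (G : SimpleGraph V),
      Fintype.card V = n ∧ (n : ℝ) / 2 < k ∧ k < n ∧ (1 - ε) * n ≤ k ∧
      G.Connected ∧ G.ediam = ((r + 1 : ℕ) : ℕ∞) ∧ UniformBallsOfRadius G r k ∧
      ∃ f : Fin s → V, (∀ i j, i ≠ j → ¬ ∃ φ : G ≃g G, φ (f i) = f j) ∧
        ∀ v, ∃ i, ∃ φ : G ≃g G, φ (f i) = v := by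
  obtain ⟨m, hm⟩ := exists_nat_gt (1 / ε)
  set w : ℕ := m + 2 with hw
  have hw0 : 0 < w := by omega
  have hrw : 0 < r * w := Nat.mul_pos hr hw0
  set N : ℕ := 2 * (r * w) with hN
  have : NeZero N := ⟨by omega⟩
  have hNw : w ≤ N := by nlinarith
  have hN4 : 4 ≤ N := by nlinarith
  set G := TG (rho s N) w N (pos s N) with hG
  have hπ := pos_rho s N
  have hper6 : ∀ (a : VV s N) (δ : ℤ), -(6 * ((r : ℤ) * w)) < δ → δ < 6 * ((r : ℤ) * w) →
      (rho s N ^ δ) a = a → δ = 0 := by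
    intro a δ h1 h2 h3
    have hrw' : (0 : ℤ) < (r : ℤ) * w := by exact_mod_cast hrw
    have hNz : (N : ℤ) = 2 * ((r : ℤ) * w) := by rw [hN]; push_cast; ring
    exact rho_per s N a δ (by rw [hNz]; linarith) (by rw [hNz]; linarith) h3
  have hper8 : ∀ (a : VV s N) (δ : ℤ), -(8 * ((r : ℤ) * w)) < δ → δ < 8 * ((r : ℤ) * w) →
      (rho s N ^ δ) a = a → δ = 0 := by
    intro a δ h1 h2 h3
    have hNz : (N : ℤ) = 2 * ((r : ℤ) * w) := by rw [hN]; push_cast; ring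
    exact rho_per s N a δ (by rw [hNz]; linarith) (by rw [hNz]; linarith) h3
  have hall : ∀ v v' : VV s N, RootedIso G r v v' := rootedIso_all hπ hN hrw hper6
  let i0 : Fin s := ⟨0, hs⟩
  let a0 : VV s N := ⟨i0, 0⟩
  have hne : Nonempty (VV s N) := ⟨a0⟩
  set k : ℕ := (ball G a0 r).ncard with hk
  have hcard : ∀ v, (ball G v r).ncard = k := by
    intro v
    obtain ⟨φ, -⟩ := hall v a0
    rw [hk, ← Nat.card_coe_set_eq, ← Nat.card_coe_set_eq]
    exact Nat.card_congr φ.toEquiv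
  have hsum : k + ((ball G a0 r)ᶜ).ncard = Fintype.card (VV s N) := by
    rw [hk, Set.ncard_add_ncard_compl, Nat.card_eq_fintype_card]
  have hfc := far_count hπ hN hrw a0
  rw [Nat.card_eq_fintype_card] at hfc
  have hfar0 : Far G r a0 ((rho s N ^ (3 * ((r : ℤ) * w))) a0) :=
    far_mul hπ hN hrw a0 (hper8 a0) 3 (Or.inl rfl)
  have hpos : 0 < ((ball G a0 r)ᶜ).ncard := by
    rw [Set.ncard_pos]
    exact ⟨_, hfar0⟩
  set c := ((ball G a0 r)ᶜ).ncard with hc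
  set n := Fintype.card (VV s N) with hn
  have hn0 : 0 < n := by omega
  have hreal : (n : ℝ) = (k : ℝ) + c := by exact_mod_cast hsum.symm
  have hfcr : (N : ℝ) * c ≤ n := by exact_mod_cast hfc
  have hN4r : (4 : ℝ) ≤ N := by exact_mod_cast hN4
  have hc0 : (0 : ℝ) < c := by exact_mod_cast hpos
  refine ⟨n, k, VV s N, inferInstance, G, rfl, ?_, by omega, ?_, ?_, ?_, ⟨hcard, hall⟩, ?_⟩
  · nlinarith
  · have h1 : 1 ≤ ε * N := by
      have h2 : 1 / ε < N := by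
        have : (m : ℝ) ≤ N := by exact_mod_cast (by omega : m ≤ N)
        linarith
      rw [div_lt_iff₀ hε] at h2
      linarith
    have h3 : (c : ℝ) ≤ ε * n := by
      have h4 : (c : ℝ) ≤ ε * N * c := by nlinarith
      have h5 : ε * N * c ≤ ε * n := by
        rw [mul_assoc]
        exact mul_le_mul_of_nonneg_left hfcr hε.le
      linarith
    linarith
  · refine SimpleGraph.connected_of_ediam_ne_top ?_
    have h1 : G.ediam ≤ ((r + 1 : ℕ) : ℕ∞) :=
      SimpleGraph.ediam_le_of_edist_le (edist_le_succ hπ hN hrw)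
    intro h2
    rw [h2] at h1
    exact absurd h1 (by simp)
  · refine le_antisymm (SimpleGraph.ediam_le_of_edist_le (edist_le_succ hπ hN hrw)) ?_
    have h1 : ¬ G.edist ((rho s N ^ (3 * ((r : ℤ) * w))) a0) a0 ≤ r := hfar0
    have h2 : ((r : ℕ∞)) + 1 ≤ G.edist ((rho s N ^ (3 * ((r : ℤ) * w))) a0) a0 :=
      Order.add_one_le_of_lt (not_le.mp h1)
    push_cast
    exact h2.trans SimpleGraph.edist_le_ediam
  · refine ⟨fun i => ⟨i, 0⟩, ?_, ?_⟩
    · rintro i j hij ⟨φ, hφ⟩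
      have h1 := comp_ncard G r φ (⟨i, 0⟩ : VV s N)
      simp only at hφ
      rw [hφ, hG, hN, comp_card s w r hrw, comp_card s w r hrw] at h1
      exact hij (Fin.ext (by omega))
    · rintro ⟨i, x⟩
      refine ⟨i, rotIso hπ x.val, ?_⟩
      show (rho s N ^ ((x.val : ℕ) : ℤ)) ⟨i, 0⟩ = ⟨i, x⟩
      rw [rho_zpow]
      congr 1
      rw [zero_add]
      simp

end Pool.Agent.Y404.UB
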