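import Pool.Agent.Y404.UB.Swap

set_option autoImplicit false

/-!
# Twisted cyclic graphs: an invariant of automorphisms
-/

namespace Pool.Agent.Y404.UB

open Pool.Agent.Results.MP_409260_co.NotTransitive

variable {V : Type}

lemma edist_iso_le (G : SimpleGraph V) (φ : G ≃g G) (a b : V) :
    G.edist (φ a) (φ b) ≤ G.edist a b := by
  by_cases htop : G.edist a b = ⊤
  · rw [htop]; exact le_top
  · obtain ⟨p, hp⟩ := SimpleGraph.exists_walk_of_edist_ne_top htop
    rw [← hp]
    have h := (p.map φ.toHom).edist_le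
    rw [SimpleGraph.Walk.length_map] at h
    exact h

lemma edist_iso (G : SimpleGraph V) (φ : G ≃g G) (a b : V) :
    G.edist (φ a) (φ b) = G.edist a b := by
  refine le_antisymm (edist_iso_le G φ a b) ?_
  have := edist_iso_le G φ.symm (φ a) (φ b)
  rwa [φ.symm_apply_apply, φ.symm_apply_apply] at this

/-- at distance more than `r` -/
def Far (G : SimpleGraph V) (r : ℕ) (a b : V) : Prop := b ∉ ball G a r

lemma far_iso (G : SimpleGraph V) (r : ℕ) (φ : G ≃g G) (a b : V) :
    Far G r (φ a) (φ b) ↔ Far G r a b := by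
  unfold Far ball
  rw [Set.mem_ofPred_eq, Set.mem_ofPred_eq, edist_iso]

/-- not far, but joined by three far steps -/
def Rel (G : SimpleGraph V) (r : ℕ) (a b : V) : Prop :=
  ¬ Far G r a b ∧ ∃ c d, Far G r a c ∧ Far G r c d ∧ Far G r d b

lemma rel_iso (G : SimpleGraph V) (r : ℕ) (φ : G ≃g G) (a b : V) (h : Rel G r a b) :
    Rel G r (φ a) (φ b) := by
  obtain ⟨h1, c, d, h2, h3, h4⟩ := h
  exact ⟨fun h => h1 ((far_iso G r φ a b).mp h), φ c, φ d, (far_iso G r φ _ _).mpr h2,
    (far_iso G r φ _ _).mpr h3, (far_iso G r φ _ _).mpr h4⟩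

/-- the component of `a` for `Rel` -/
def Comp (G : SimpleGraph V) (r : ℕ) (a : V) : Set V := {b | Relation.ReflTransGen (Rel G r) a b}

lemma comp_iso_sub (G : SimpleGraph V) (r : ℕ) (φ : G ≃g G) (a : V) :
    φ '' Comp G r a ⊆ Comp G r (φ a) := by
  rintro _ ⟨b, hb, rfl⟩
  have hb' : Relation.ReflTransGen (Rel G r) a b := hb
  show Relation.ReflTransGen (Rel G r) (φ a) (φ b)
  clear hb
  induction hb' with
  | refl => exact .refl
  | tail _ h ih => exact ih.tail (rel_iso G r φ _ _ h)

lemma comp_iso (G : SimpleGraph V) (r : ℕ) (φ : G ≃g G) (a : V) :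
    φ '' Comp G r a = Comp G r (φ a) := by
  refine Set.Subset.antisymm (comp_iso_sub G r φ a) ?_
  intro b hb
  have h1 := comp_iso_sub G r φ.symm (φ a) ⟨b, hb, rfl⟩
  rw [φ.symm_apply_apply] at h1
  exact ⟨φ.symm b, h1, φ.apply_symm_apply b⟩

lemma comp_ncard (G : SimpleGraph V) (r : ℕ) (φ : G ≃g G) (a : V) :
    (Comp G r (φ a)).ncard = (Comp G r a).ncard := by
  rw [← comp_iso, Set.ncard_image_of_injective _ φ.injective]

variable {ρ : Equiv.Perm V} {w N : ℕ} {π : V → ZMod N}

lemma far_mul (hπ : ∀ v, π (ρ v) = π v + 1) {r : ℕ} (hN : N = 2 * (r * w))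
    (hrw : 0 < r * w) (a : V)
    (hper : ∀ δ : ℤ, -(8 * ((r : ℤ) * w)) < δ → δ < 8 * ((r : ℤ) * w) → (ρ ^ δ) a = a → δ = 0)
    (j : ℤ) (hj : j = 3 ∨ j = 5 ∨ j = -3 ∨ j = -5) :
    Far (TG ρ w N π) r a ((ρ ^ (j * ((r : ℤ) * w))) a) := by
  have hrw' : (0 : ℤ) < (r : ℤ) * w := by exact_mod_cast hrw
  have h0 : (2 * ((r : ZMod N) * (w : ZMod N))) = 0 := by
    have := ZMod.natCast_self N
    conv at this => lhs; arg 1; rw [hN]
    push_cast at this
    exact this
  unfold Far
  rw [mem_ball_iff hπ hN hrw]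
  intro h
  rcases h with h | h | h
  · apply h
    rw [sh_pi hπ]
    rcases hj with rfl | rfl | rfl | rfl
    · push_cast; linear_combination h0
    · push_cast; linear_combination 2 * h0
    · push_cast; linear_combination -2 * h0
    · push_cast; linear_combination -3 * h0
  · rw [sh_eq_iff] at h
    push_cast at h
    rcases hj with rfl | rfl | rfl | rfl
    · have := hper _ (by linarith) (by linarith) h.symm; linarith
    · have := hper _ (by linarith) (by linarith) h.symm; linarith
    · have := hper _ (by linarith) (by linarith) h.symm; linarith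
    · have := hper _ (by linarith) (by linarith) h.symm; linarith
  · rw [sh_eq_iff] at h
    push_cast at h
    rcases hj with rfl | rfl | rfl | rfl
    · have := hper _ (by linarith) (by linarith) h.symm; linarith
    · have := hper _ (by linarith) (by linarith) h.symm; linarith
    · have := hper _ (by linarith) (by linarith) h.symm; linarith
    · have := hper _ (by linarith) (by linarith) h.symm; linarith

lemma rel_iff (hπ : ∀ v, π (ρ v) = π v + 1) {r : ℕ} (hN : N = 2 * (r * w))
    (hrw : 0 < r * w)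
    (hper : ∀ (a : V) (δ : ℤ), -(8 * ((r : ℤ) * w)) < δ → δ < 8 * ((r : ℤ) * w) →
      (ρ ^ δ) a = a → δ = 0) (a b : V) :
    Rel (TG ρ w N π) r a b ↔ b = (ρ ^ ((r : ℤ) * w)) a ∨ b = (ρ ^ (-((r : ℤ) * w))) a := by
  have h0 : (2 * ((r : ZMod N) * (w : ZMod N))) = 0 := by
    have := ZMod.natCast_self N
    conv at this => lhs; arg 1; rw [hN]
    push_cast at this
    exact this
  have farpi : ∀ x y, Far (TG ρ w N π) r x y → π y = π x + ((r * w : ℕ) : ZMod N) := by
    intro x y h
    by_contra hne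
    exact h ((mem_ball_iff hπ hN hrw x y).mpr (Or.inl hne))
  constructor
  · rintro ⟨h1, c, d, h2, h3, h4⟩
    have h5 : b ∈ ball (TG ρ w N π) a r := by
      by_contra hb
      exact h1 hb
    rw [mem_ball_iff hπ hN hrw] at h5
    rcases h5 with h5 | h5 | h5
    · exfalso
      apply h5
      rw [farpi _ _ h4, farpi _ _ h3, farpi _ _ h2]
      push_cast
      linear_combination h0
    · left; rw [h5]; push_cast; rfl
    · right; rw [h5]; push_cast; rfl
  · intro h
    have hnf : ¬ Far (TG ρ w N π) r a b := by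
      intro hf
      apply hf
      rw [mem_ball_iff hπ hN hrw]
      right
      rcases h with h | h
      · left; rw [h]; push_cast; rfl
      · right; rw [h]; push_cast; rfl
    refine ⟨hnf, ?_⟩
    rcases h with rfl | rfl
    · refine ⟨(ρ ^ (3 * ((r : ℤ) * w))) a, (ρ ^ (6 * ((r : ℤ) * w))) a,
        far_mul hπ hN hrw a (hper a) 3 (by norm_num), ?_, ?_⟩
      · have := far_mul hπ hN hrw ((ρ ^ (3 * ((r : ℤ) * w))) a) (hper _) 3 (by norm_num)
        rw [← sh_add] at this
        convert this using 3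
        ring
      · have := far_mul hπ hN hrw ((ρ ^ (6 * ((r : ℤ) * w))) a) (hper _) (-5) (by norm_num)
        rw [← sh_add] at this
        convert this using 3
        ring
    · refine ⟨(ρ ^ (-3 * ((r : ℤ) * w))) a, (ρ ^ (-6 * ((r : ℤ) * w))) a,
        far_mul hπ hN hrw a (hper a) (-3) (by norm_num), ?_, ?_⟩
      · have := far_mul hπ hN hrw ((ρ ^ (-3 * ((r : ℤ) * w))) a) (hper _) (-3) (by norm_num)
        rw [← sh_add] at this
        convert this using 3
        ring
      · have := far_mul hπ hN hrw ((ρ ^ (-6 * ((r : ℤ) * w))) a) (hper _) 5 (by norm_num)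
        rw [← sh_add] at this
        convert this using 3
        ring

lemma comp_eq (hπ : ∀ v, π (ρ v) = π v + 1) {r : ℕ} (hN : N = 2 * (r * w))
    (hrw : 0 < r * w)
    (hper : ∀ (a : V) (δ : ℤ), -(8 * ((r : ℤ) * w)) < δ → δ < 8 * ((r : ℤ) * w) →
      (ρ ^ δ) a = a → δ = 0) (a : V) :
    Comp (TG ρ w N π) r a = {b | ∃ j : ℤ, b = (ρ ^ (j * ((r : ℤ) * w))) a} := by
  have hrel := rel_iff (V := V) (ρ := ρ) (π := π) hπ hN hrw hper
  ext b
  unfold Comp
  rw [Set.mem_ofPred_eq, Set.mem_ofPred_eq]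
  constructor
  · intro h
    induction h with
    | refl => exact ⟨0, by simp⟩
    | tail _ h ih =>
      obtain ⟨j, rfl⟩ := ih
      rw [hrel] at h
      rcases h with rfl | rfl
      · exact ⟨j + 1, by rw [← sh_add]; congr 2; ring⟩
      · exact ⟨j - 1, by rw [← sh_add]; congr 2; ring⟩
  · rintro ⟨j, rfl⟩
    induction j using Int.induction_on with
    | zero => simp only [zero_mul, zpow_zero, Equiv.Perm.coe_one, id_eq]; exact .refl
    | succ i ih =>
      refine ih.tail ?_
      rw [hrel]
      left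
      rw [← sh_add]; congr 2; ring
    | pred i ih =>
      refine ih.tail ?_
      rw [hrel]
      right
      rw [← sh_add]; congr 2; ring

end Pool.Agent.Y404.UB
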