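import Pool.Agent.Y404.UB.Basic

set_option autoImplicit false

/-!
# Twisted cyclic graphs: all balls of radius `r` are isomorphic
-/

namespace Pool.Agent.Y404.UB

open Pool.Agent.Results.MP_409260_co.NotTransitive

variable {V : Type} {ρ : Equiv.Perm V} {w N : ℕ} {π : V → ZMod N}

/-- rooted isomorphism from a permutation -/
lemma rootedIso_of_perm (G : SimpleGraph V) (r : ℕ) (v v' : V) (Φ : Equiv.Perm V)
    (h1 : Φ v = v') (h2 : ∀ u, Φ u ∈ ball G v' r ↔ u ∈ ball G v r)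
    (h3 : ∀ u ∈ ball G v r, ∀ u' ∈ ball G v r, G.Adj (Φ u) (Φ u') ↔ G.Adj u u') :
    RootedIso G r v v' := by
  refine ⟨⟨Φ.subtypeEquiv (fun u => (h2 u).symm), ?_⟩, ?_⟩
  · rintro ⟨u, hu⟩ ⟨u', hu'⟩
    exact h3 u hu u' hu'
  · intro x hx
    show Φ (x : V) = v'
    rw [hx, h1]

lemma RootedIso.trans' {G : SimpleGraph V} {r : ℕ} {a b c : V} (h : RootedIso G r a b)
    (h' : RootedIso G r b c) : RootedIso G r a c := by
  obtain ⟨φ, hφ⟩ := h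
  obtain ⟨ψ, hψ⟩ := h'
  exact ⟨φ.trans ψ, fun x hx => hψ _ (hφ x hx)⟩

lemma adj_rot (hπ : ∀ v, π (ρ v) = π v + 1) (δ : ℤ) (u u' : V) :
    (TG ρ w N π).Adj ((ρ ^ δ) u) ((ρ ^ δ) u') ↔ (TG ρ w N π).Adj u u' := by
  have hcomm : ∀ x : V, (ρ ^ (w : ℤ)) ((ρ ^ δ) x) = (ρ ^ δ) ((ρ ^ (w : ℤ)) x) := by
    intro x
    rw [← sh_add, ← sh_add, add_comm]
  unfold TG
  simp only [sh_pi hπ, hcomm, (ρ ^ δ).injective.eq_iff, ne_eq]
  have hnear : ∀ δ' : ℤ, (π u' + (δ : ZMod N) = π u + (δ : ZMod N) + (δ' : ZMod N)) ↔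
      (π u' = π u + (δ' : ZMod N)) := by
    intro δ'
    constructor
    · intro h
      linear_combination h
    · intro h
      rw [h]; ring
  simp only [hnear]

/-- rotations are automorphisms -/
def rotIso (hπ : ∀ v, π (ρ v) = π v + 1) (δ : ℤ) : TG ρ w N π ≃g TG ρ w N π :=
  ⟨ρ ^ δ, fun {u u'} => adj_rot hπ δ u u'⟩

lemma B_rot (hπ : ∀ v, π (ρ v) = π v + 1) (r : ℕ) (δ : ℤ) (a u : V) :
    B ρ w r π ((ρ ^ δ) a) ((ρ ^ δ) u) ↔ B ρ w r π a u := by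
  have hcomm : ∀ (δ' : ℤ) (x : V), (ρ ^ δ') ((ρ ^ δ) x) = (ρ ^ δ) ((ρ ^ δ') x) := by
    intro δ' x
    rw [← sh_add, ← sh_add, add_comm]
  unfold B
  simp only [sh_pi hπ, hcomm, (ρ ^ δ).injective.eq_iff, ne_eq]
  have h1 : (π u + (δ : ZMod N) = π a + (δ : ZMod N) + ((r * w : ℕ) : ZMod N)) ↔
      (π u = π a + ((r * w : ℕ) : ZMod N)) := by
    constructor
    · intro h
      linear_combination h
    · intro h
      rw [h]; ring
  rw [h1]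

lemma rootedIso_rot (hπ : ∀ v, π (ρ v) = π v + 1) {r : ℕ} (hN : N = 2 * (r * w))
    (hrw : 0 < r * w) (δ : ℤ) (a : V) : RootedIso (TG ρ w N π) r a ((ρ ^ δ) a) := by
  refine rootedIso_of_perm _ r a _ (ρ ^ δ) rfl ?_ ?_
  · intro u
    rw [mem_ball_iff hπ hN hrw, mem_ball_iff hπ hN hrw, B_rot hπ]
  · intro u _ u' _
    exact adj_rot hπ δ u u'

/-- `Φ` exchanges the segments of `a` and `a'` and fixes everything else. -/
structure IsSwap (ρ : Equiv.Perm V) (w r : ℕ) (a a' : V) (Φ : V → V) : Prop where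
  p1 : ∀ j : ℤ, -(3 * (r : ℤ)) < j → j < 3 * r → Φ ((ρ ^ (j * w)) a) = (ρ ^ (j * w)) a'
  p2 : ∀ j : ℤ, -(3 * (r : ℤ)) < j → j < 3 * r → Φ ((ρ ^ (j * w)) a') = (ρ ^ (j * w)) a
  p3 : ∀ v, (∀ j : ℤ, -(3 * (r : ℤ)) < j → j < 3 * r →
    v ≠ (ρ ^ (j * w)) a ∧ v ≠ (ρ ^ (j * w)) a') → Φ v = v

lemma IsSwap.symm' {r : ℕ} {a a' : V} {Φ : V → V} (h : IsSwap ρ w r a a' Φ) :
    IsSwap ρ w r a' a Φ :=
  ⟨h.p2, h.p1, fun v hv => h.p3 v fun j h1 h2 => ⟨(hv j h1 h2).2, (hv j h1 h2).1⟩⟩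

open Classical in
lemma exists_swap (hw : 0 < w) {r : ℕ} (a a' : V)
    (ha : ∀ δ : ℤ, -(6 * ((r : ℤ) * w)) < δ → δ < 6 * ((r : ℤ) * w) → (ρ ^ δ) a = a → δ = 0)
    (ha' : ∀ δ : ℤ, -(6 * ((r : ℤ) * w)) < δ → δ < 6 * ((r : ℤ) * w) → (ρ ^ δ) a' = a' → δ = 0)
    (hd : ∀ δ : ℤ, (ρ ^ δ) a ≠ a') : ∃ Φ : V → V, IsSwap ρ w r a a' Φ := by
  have hw' : (0 : ℤ) < w := by exact_mod_cast hw
  have uniq : ∀ (b : V),
      (∀ δ : ℤ, -(6 * ((r : ℤ) * w)) < δ → δ < 6 * ((r : ℤ) * w) → (ρ ^ δ) b = b → δ = 0) →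
      ∀ j j' : ℤ, -(3 * (r : ℤ)) < j → j < 3 * r → -(3 * (r : ℤ)) < j' → j' < 3 * r →
      (ρ ^ (j * w)) b = (ρ ^ (j' * w)) b → j' = j := by
    intro b hb j j' h1 h2 h3 h4 h5
    rw [sh_eq_iff] at h5
    have h6 : j' * w - j * w = (j' - j) * (w : ℤ) := by ring
    rw [h6] at h5
    have h7 := hb ((j' - j) * (w : ℤ)) (by nlinarith) (by nlinarith) h5.symm
    rcases mul_eq_zero.mp h7 with h8 | h8
    · omega
    · omega
  refine ⟨fun v => if h : ∃ j : ℤ, -(3 * (r : ℤ)) < j ∧ j < 3 * r ∧ v = (ρ ^ (j * w)) a then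
      (ρ ^ (h.choose * w)) a'
    else if h' : ∃ j : ℤ, -(3 * (r : ℤ)) < j ∧ j < 3 * r ∧ v = (ρ ^ (j * w)) a' then
      (ρ ^ (h'.choose * w)) a else v, ?_, ?_, ?_⟩
  · intro j h1 h2
    have h : ∃ k : ℤ, -(3 * (r : ℤ)) < k ∧ k < 3 * r ∧ (ρ ^ (j * w)) a = (ρ ^ (k * w)) a :=
      ⟨j, h1, h2, rfl⟩
    rw [dif_pos h]
    obtain ⟨h3, h4, h5⟩ := h.choose_spec
    rw [uniq a ha j _ h1 h2 h3 h4 h5]
  · intro j h1 h2
    have hn : ¬ ∃ k : ℤ, -(3 * (r : ℤ)) < k ∧ k < 3 * r ∧ (ρ ^ (j * w)) a' = (ρ ^ (k * w)) a := by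
      rintro ⟨k, -, -, h5⟩
      rw [sh_eq_iff] at h5
      exact hd _ h5.symm
    have h : ∃ k : ℤ, -(3 * (r : ℤ)) < k ∧ k < 3 * r ∧ (ρ ^ (j * w)) a' = (ρ ^ (k * w)) a' :=
      ⟨j, h1, h2, rfl⟩
    rw [dif_neg hn, dif_pos h]
    obtain ⟨h3, h4, h5⟩ := h.choose_spec
    rw [uniq a' ha' j _ h1 h2 h3 h4 h5]
  · intro v hv
    have h1 : ¬ ∃ k : ℤ, -(3 * (r : ℤ)) < k ∧ k < 3 * r ∧ v = (ρ ^ (k * w)) a := by
      rintro ⟨k, h3, h4, h5⟩
      exact (hv k h3 h4).1 h5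
    have h2 : ¬ ∃ k : ℤ, -(3 * (r : ℤ)) < k ∧ k < 3 * r ∧ v = (ρ ^ (k * w)) a' := by
      rintro ⟨k, h3, h4, h5⟩
      exact (hv k h3 h4).2 h5
    rw [dif_neg h1, dif_neg h2]

lemma seg_cases (r : ℕ) (a a' v : V) :
    (∃ j : ℤ, -(3 * (r : ℤ)) < j ∧ j < 3 * r ∧ v = (ρ ^ (j * w)) a) ∨
    (∃ j : ℤ, -(3 * (r : ℤ)) < j ∧ j < 3 * r ∧ v = (ρ ^ (j * w)) a') ∨
    (∀ j : ℤ, -(3 * (r : ℤ)) < j → j < 3 * r → v ≠ (ρ ^ (j * w)) a ∧ v ≠ (ρ ^ (j * w)) a') := by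
  by_cases h1 : ∃ j : ℤ, -(3 * (r : ℤ)) < j ∧ j < 3 * r ∧ v = (ρ ^ (j * w)) a
  · exact Or.inl h1
  by_cases h2 : ∃ j : ℤ, -(3 * (r : ℤ)) < j ∧ j < 3 * r ∧ v = (ρ ^ (j * w)) a'
  · exact Or.inr (Or.inl h2)
  · exact Or.inr (Or.inr fun j h3 h4 => ⟨fun h => h1 ⟨j, h3, h4, h⟩, fun h => h2 ⟨j, h3, h4, h⟩⟩)

lemma swap_invol {r : ℕ} {a a' : V} {Φ : V → V} (hΦ : IsSwap ρ w r a a' Φ) (v : V) :
    Φ (Φ v) = v := by
  rcases seg_cases (ρ := ρ) (w := w) r a a' v with ⟨j, h1, h2, rfl⟩ | ⟨j, h1, h2, rfl⟩ | h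
  · rw [hΦ.p1 j h1 h2, hΦ.p2 j h1 h2]
  · rw [hΦ.p2 j h1 h2, hΦ.p1 j h1 h2]
  · rw [hΦ.p3 v h, hΦ.p3 v h]

lemma swap_pi (hπ : ∀ v, π (ρ v) = π v + 1) {r : ℕ} {a a' : V} {Φ : V → V}
    (hΦ : IsSwap ρ w r a a' Φ) (haa : π a = π a') (v : V) : π (Φ v) = π v := by
  rcases seg_cases (ρ := ρ) (w := w) r a a' v with ⟨j, h1, h2, rfl⟩ | ⟨j, h1, h2, rfl⟩ | h
  · rw [hΦ.p1 j h1 h2, sh_pi hπ, sh_pi hπ, haa]
  · rw [hΦ.p2 j h1 h2, sh_pi hπ, sh_pi hπ, haa]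
  · rw [hΦ.p3 v h]

lemma swap_B (hπ : ∀ v, π (ρ v) = π v + 1) {r : ℕ} (hr : 0 < r) {a a' : V} {Φ : V → V}
    (hΦ : IsSwap ρ w r a a' Φ) (haa : π a = π a') {u : V} (h : B ρ w r π a u) :
    B ρ w r π a' (Φ u) := by
  have hr' : (0 : ℤ) < r := by exact_mod_cast hr
  rcases h with h | h | h
  · left
    rw [swap_pi hπ hΦ haa, ← haa]; exact h
  · right; left
    have := hΦ.p1 r (by omega) (by omega)
    rw [h]; push_cast; exact this
  · right; right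
    have := hΦ.p1 (-r) (by omega) (by omega)
    rw [h]; push_cast
    rw [neg_mul] at this
    exact this

lemma pi_three (hπ : ∀ v, π (ρ v) = π v + 1) {r : ℕ} (hN : N = 2 * (r * w)) (v : V) :
    π ((ρ ^ (3 * (r : ℤ) * w)) v) = π v + ((r * w : ℕ) : ZMod N) ∧
    π ((ρ ^ (-(3 * (r : ℤ) * w))) v) = π v + ((r * w : ℕ) : ZMod N) := by
  have h0 : (2 * ((r : ZMod N) * (w : ZMod N))) = 0 := by
    have := ZMod.natCast_self N
    conv at this => lhs; arg 1; rw [hN]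
    push_cast at this
    exact this
  constructor
  · rw [sh_pi hπ]; push_cast; linear_combination h0
  · rw [sh_pi hπ]; push_cast; linear_combination -2 * h0

lemma swap_step (hπ : ∀ v, π (ρ v) = π v + 1) {r : ℕ} (hN : N = 2 * (r * w))
    (hrw : 0 < r * w) {a a' : V} {Φ : V → V}
    (ha : ∀ δ : ℤ, -(6 * ((r : ℤ) * w)) < δ → δ < 6 * ((r : ℤ) * w) → (ρ ^ δ) a = a → δ = 0)
    (hd : ∀ δ : ℤ, (ρ ^ δ) a ≠ a')
    (hΦ : IsSwap ρ w r a a' Φ) (haa : π a = π a') {u : V} (h : B ρ w r π a u)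
    (h' : B ρ w r π a ((ρ ^ (w : ℤ)) u)) : Φ ((ρ ^ (w : ℤ)) u) = (ρ ^ (w : ℤ)) (Φ u) := by
  have hr : 0 < r := Nat.pos_of_mul_pos_right hrw
  have hr' : (0 : ℤ) < r := by exact_mod_cast hr
  have hrw' : (0 : ℤ) < (r : ℤ) * w := by exact_mod_cast hrw
  have step : ∀ (j : ℤ) (b : V), (ρ ^ (w : ℤ)) ((ρ ^ (j * w)) b) = (ρ ^ ((j + 1) * w)) b := by
    intro j b
    rw [← sh_add]; congr 2; ring
  have hanti : ∀ v, B ρ w r π a v → π v = π a + ((r * w : ℕ) : ZMod N) →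
      v = (ρ ^ ((r : ℤ) * w)) a ∨ v = (ρ ^ (-(r : ℤ) * w)) a := by
    intro v hv hv'
    rcases hv with hv | hv | hv
    · exact absurd hv' hv
    · left; rw [hv]; push_cast; rfl
    · right; rw [hv]; push_cast; rw [neg_mul]
  rcases seg_cases (ρ := ρ) (w := w) r a a' u with ⟨j, h1, h2, rfl⟩ | ⟨j, h1, h2, rfl⟩ | hu
  · rw [hΦ.p1 j h1 h2, step, step]
    by_cases hj : j + 1 < 3 * r
    · exact hΦ.p1 (j + 1) (by omega) hj
    · exfalso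
      have hj' : j + 1 = 3 * r := by omega
      rw [step, hj'] at h'
      rcases hanti _ h' (pi_three hπ hN a).1 with h5 | h5
      · rw [sh_eq_iff] at h5
        have := ha _ (by nlinarith) (by nlinarith) h5.symm
        nlinarith
      · rw [sh_eq_iff] at h5
        have := ha _ (by nlinarith) (by nlinarith) h5.symm
        nlinarith
  · rw [hΦ.p2 j h1 h2, step, step]
    by_cases hj : j + 1 < 3 * r
    · exact hΦ.p2 (j + 1) (by omega) hj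
    · exfalso
      have hj' : j + 1 = 3 * r := by omega
      rw [step, hj'] at h'
      rcases hanti _ h' (by rw [haa]; exact (pi_three hπ hN a').1) with h5 | h5
      · rw [sh_eq_iff] at h5
        exact hd _ h5.symm
      · rw [sh_eq_iff] at h5
        exact hd _ h5.symm
  · have hnot : ∀ b, π b = π a → (u = (ρ ^ (-(3 * (r : ℤ) * w))) b) → False := by
      intro b hb hub
      have h5 : π u = π a + ((r * w : ℕ) : ZMod N) := by
        rw [hub, (pi_three hπ hN b).2, hb]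
      rcases hanti _ h h5 with h6 | h6
      · exact (hu r (by omega) (by omega)).1 h6
      · exact (hu (-r) (by omega) (by omega)).1 h6
    have hall : ∀ j : ℤ, -(3 * (r : ℤ)) < j → j < 3 * r →
        (ρ ^ (w : ℤ)) u ≠ (ρ ^ (j * w)) a ∧ (ρ ^ (w : ℤ)) u ≠ (ρ ^ (j * w)) a' := by
      intro j h3 h4
      have back : ∀ b, (ρ ^ (w : ℤ)) u = (ρ ^ (j * w)) b → u = (ρ ^ ((j - 1) * w)) b := by
        intro b hb
        rw [sh_eq_iff] at hb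
        rw [hb]; congr 2; ring
      by_cases hj : -(3 * (r : ℤ)) < j - 1
      · refine ⟨fun h5 => ?_, fun h5 => ?_⟩
        · exact (hu (j - 1) hj (by omega)).1 (back a h5)
        · exact (hu (j - 1) hj (by omega)).2 (back a' h5)
      · have hj' : (j - 1) * (w : ℤ) = -(3 * (r : ℤ) * w) := by
          have : j - 1 = -(3 * (r : ℤ)) := by omega
          rw [this]; ring
        refine ⟨fun h5 => ?_, fun h5 => ?_⟩
        · exact hnot a rfl (by rw [← hj']; exact back a h5)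
        · exact hnot a' haa.symm (by rw [← hj']; exact back a' h5)
    rw [hΦ.p3 _ hall, hΦ.p3 _ hu]

lemma swap_adj (hπ : ∀ v, π (ρ v) = π v + 1) {r : ℕ} (hN : N = 2 * (r * w))
    (hrw : 0 < r * w) {a a' : V} {Φ : V → V}
    (ha : ∀ δ : ℤ, -(6 * ((r : ℤ) * w)) < δ → δ < 6 * ((r : ℤ) * w) → (ρ ^ δ) a = a → δ = 0)
    (hd : ∀ δ : ℤ, (ρ ^ δ) a ≠ a')
    (hΦ : IsSwap ρ w r a a' Φ) (haa : π a = π a') {u u' : V} (h : B ρ w r π a u)
    (h' : B ρ w r π a u') (hadj : (TG ρ w N π).Adj u u') :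
    (TG ρ w N π).Adj (Φ u) (Φ u') := by
  have hinv : Function.Involutive Φ := swap_invol hΦ
  have hinj : Function.Injective Φ := hinv.injective
  obtain ⟨hne, hcase⟩ := hadj
  refine ⟨fun hh => hne (hinj hh), ?_⟩
  rcases hcase with ⟨δ, h1, h2, h3⟩ | h3 | h3
  · left
    exact ⟨δ, h1, h2, by rw [swap_pi hπ hΦ haa, swap_pi hπ hΦ haa]; exact h3⟩
  · right; left
    subst h3
    exact swap_step hπ hN hrw ha hd hΦ haa h h'
  · right; right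
    subst h3
    exact swap_step hπ hN hrw ha hd hΦ haa h' h

/-- **All balls of radius `r` are isomorphic.** -/
theorem rootedIso_all (hπ : ∀ v, π (ρ v) = π v + 1) {r : ℕ} (hN : N = 2 * (r * w))
    (hrw : 0 < r * w)
    (hper : ∀ (a : V) (δ : ℤ), -(6 * ((r : ℤ) * w)) < δ → δ < 6 * ((r : ℤ) * w) →
      (ρ ^ δ) a = a → δ = 0) (v v' : V) : RootedIso (TG ρ w N π) r v v' := by
  have hw : 0 < w := Nat.pos_of_mul_pos_left hrw
  have hr : 0 < r := Nat.pos_of_mul_pos_right hrw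
  obtain ⟨δ, -, -, h3⟩ := exists_disp (π := π) hN hrw v v'
  have h1 := rootedIso_rot (π := π) hπ hN hrw δ v
  have h4 : π ((ρ ^ δ) v) = π v' := by rw [sh_pi hπ, h3]
  generalize (ρ ^ δ) v = a at h1 h4
  refine RootedIso.trans' h1 ?_
  by_cases hd : ∃ δ : ℤ, (ρ ^ δ) a = v'
  · obtain ⟨δ', rfl⟩ := hd
    exact rootedIso_rot hπ hN hrw δ' a
  · have hd1 : ∀ δ : ℤ, (ρ ^ δ) a ≠ v' := fun δ h => hd ⟨δ, h⟩
    have hd2 : ∀ δ : ℤ, (ρ ^ δ) v' ≠ a := by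
      intro δ h
      refine hd1 (-δ) ?_
      rw [← h, ← sh_add]; simp
    obtain ⟨Φ, hΦ⟩ := exists_swap hw a v' (hper a) (hper v') hd1
    have hinv : Function.Involutive Φ := swap_invol hΦ
    have hBiff : ∀ u, B ρ w r π v' (Φ u) ↔ B ρ w r π a u := by
      intro u
      constructor
      · intro h
        have := swap_B hπ hr hΦ.symm' h4.symm h
        rwa [hinv u] at this
      · exact swap_B hπ hr hΦ h4
    refine rootedIso_of_perm _ r a v' (Function.Involutive.toPerm Φ hinv) ?_ ?_ ?_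
    · have := hΦ.p1 0 (by omega) (by omega)
      simpa using this
    · intro u
      rw [mem_ball_iff hπ hN hrw, mem_ball_iff hπ hN hrw]
      exact hBiff u
    · intro u hu u' hu'
      rw [mem_ball_iff hπ hN hrw] at hu hu'
      constructor
      · intro h
        have := swap_adj hπ hN hrw (hper v') hd2 hΦ.symm' h4.symm ((hBiff u).mpr hu)
          ((hBiff u').mpr hu') h
        rwa [hinv u, hinv u'] at this
      · intro h
        exact swap_adj hπ hN hrw (hper a) hd1 hΦ h4 hu hu' h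

end Pool.Agent.Y404.UB
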